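import Mathlib

/-!
# Counting the sequences with bounded partial sums
-/

set_option autoImplicit false

open Finset

namespace Pool.Agent.TH371.PSCount

/-- Sequences of natural numbers with `z_0 + ⋯ + z_k ≤ a + k b` for all `k`. -/
def S (n a b : ℕ) : Set (Fin n → ℕ) := {z | ∀ k : Fin n, ∑ i ∈ Iic k, z i ≤ a + k * b}

lemma sum_Iic_succ {n : ℕ} (z : Fin (n + 1) → ℕ) (j : Fin n) :
    ∑ i ∈ Iic j.succ, z i = z 0 + ∑ i ∈ Iic j, z i.succ := by
  have h1 : (Iic j.succ : Finset (Fin (n + 1))) = univ.filter (· ≤ j.succ) := by ext; simp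
  have h2 : (Iic j : Finset (Fin n)) = univ.filter (· ≤ j) := by ext; simp
  rw [h1, h2, sum_filter, sum_filter, Fin.sum_univ_succ]
  simp [Fin.succ_le_succ_iff]

lemma sum_Iic_zero {n : ℕ} (z : Fin (n + 1) → ℕ) :
    ∑ i ∈ Iic (0 : Fin (n + 1)), z i = z 0 := by
  have h1 : (Iic (0 : Fin (n + 1)) : Finset (Fin (n + 1))) = {0} := by
    ext i; simp
  rw [h1, sum_singleton]

lemma mem_S_succ {n a b : ℕ} (z : Fin (n + 1) → ℕ) :
    z ∈ S (n + 1) a b ↔ z 0 ≤ a ∧ Fin.tail z ∈ S n (a + b - z 0) b := by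
  simp only [S, Set.mem_ofPred_eq]
  constructor
  · intro h
    have h0 := h 0
    rw [sum_Iic_zero] at h0
    simp only [Fin.val_zero, zero_mul, add_zero] at h0
    refine ⟨h0, fun k => ?_⟩
    have hk := h k.succ
    rw [sum_Iic_succ] at hk
    simp only [Fin.val_succ] at hk
    have : ((k : ℕ) + 1) * b = k * b + b := by ring
    simp only [Fin.tail]
    omega
  · rintro ⟨h0, h⟩ k
    refine Fin.cases ?_ (fun k => ?_) k
    · rw [sum_Iic_zero]
      omega
    · rw [sum_Iic_succ]
      have hk := h k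
      simp only [Fin.tail] at hk
      simp only [Fin.val_succ]
      have : ((k : ℕ) + 1) * b = k * b + b := by ring
      omega

/-- Splitting off the first entry. -/
def equivSucc (n a b : ℕ) :
    S (n + 1) a b ≃ Σ c : Fin (a + 1), S n (a + b - c) b where
  toFun z := ⟨⟨z.1 0, Nat.lt_succ_of_le ((mem_S_succ z.1).1 z.2).1⟩,
    ⟨Fin.tail z.1, ((mem_S_succ z.1).1 z.2).2⟩⟩
  invFun p := ⟨Fin.cons (p.1 : ℕ) p.2.1, (mem_S_succ _).2
    ⟨Nat.le_of_lt_succ p.1.2, by simpa using p.2.2⟩⟩
  left_inv z := by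
    apply Subtype.ext
    simp
  right_inv p := by
    obtain ⟨c, z, hz⟩ := p
    rfl

instance finite_S (n : ℕ) : ∀ a b : ℕ, Finite (S n a b) := by
  induction n with
  | zero => intro a b; infer_instance
  | succ n ih =>
    intro a b
    have : ∀ c : Fin (a + 1), Finite (S n (a + b - c) b) := fun c => ih _ _
    exact Finite.of_equiv _ (equivSucc n a b).symm

lemma card_zero (a b : ℕ) : Nat.card (S 0 a b) = 1 := by
  have : S 0 a b = Set.univ := by
    ext z
    simp [S]
  rw [this]
  simp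

lemma card_succ (n a b : ℕ) :
    Nat.card (S (n + 1) a b) = ∑ c ∈ range (a + 1), Nat.card (S n (c + b) b) := by
  rw [Nat.card_congr (equivSucc n a b), Nat.card_sigma]
  rw [Fin.sum_univ_eq_sum_range (fun c => Nat.card (S n (a + b - c) b)) (a + 1)]
  rw [← sum_range_reflect]
  apply sum_congr rfl
  intro c hc
  rw [mem_range] at hc
  congr 3
  omega

/-- The closed formula. -/
theorem card_formula (n a b : ℕ) :
    (Nat.card (S (n + 1) a b) : ℝ) * (n + 1).factorial =
      (a + 1) * ∏ i ∈ range n, ((a : ℝ) + (n + 1) * b + i + 2) := by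
  induction n generalizing a with
  | zero =>
    rw [card_succ]
    simp only [card_zero]
    simp
  | succ n ih =>
    rw [card_succ]
    push_cast
    rw [sum_mul]
    let G : ℕ → ℝ := fun c => c * ∏ i ∈ range (n + 1), ((c : ℝ) + (n + 2) * b + i + 1)
    have hG : ∀ c : ℕ, (Nat.card (S (n + 1) (c + b) b) : ℝ) * (n + 1 + 1).factorial =
        G (c + 1) - G c := by
      intro c
      rw [Nat.factorial_succ]
      push_cast
      rw [mul_comm ((n : ℝ) + 1 + 1), ← mul_assoc, ih]
      simp only [G]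
      rw [prod_range_succ]
      rw [prod_range_succ' (fun i : ℕ => ((c : ℝ) + (n + 2) * b + i + 1))]
      have e1 : ∏ i ∈ range n, (((c + b : ℕ) : ℝ) + (n + 1) * b + i + 2) =
          ∏ i ∈ range n, ((c : ℝ) + (n + 2) * b + i + 2) :=
        prod_congr rfl fun i _ => by push_cast; ring
      have e2 : ∏ i ∈ range n, (((c + 1 : ℕ) : ℝ) + (n + 2) * b + i + 1) =
          ∏ i ∈ range n, ((c : ℝ) + (n + 2) * b + i + 2) :=
        prod_congr rfl fun i _ => by push_cast; ring
      have e3 : ∏ i ∈ range n, ((c : ℝ) + (n + 2) * b + ((i + 1 : ℕ) : ℝ) + 1) =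
          ∏ i ∈ range n, ((c : ℝ) + (n + 2) * b + i + 2) :=
        prod_congr rfl fun i _ => by push_cast; ring
      rw [e1, e2, e3]
      push_cast
      ring
    rw [sum_congr rfl fun c _ => hG c, sum_range_sub]
    simp only [G, Nat.cast_zero, zero_mul, sub_zero]
    push_cast
    congr 1
    exact prod_congr rfl fun i _ => by ring

end Pool.Agent.TH371.PSCount
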