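import Mathlib

/-!
# Real-rootedness of the numerator of `∑ f(t) z^t` for `f` with zeros in `[-1, 0)`
-/

set_option autoImplicit false

open Polynomial Finset

namespace Pool.Agent.TH371.Wag

/-- `W` has degree `m`, a positive leading coefficient and `m` distinct negative roots. -/
def RR (m : ℕ) (W : ℝ[X]) : Prop :=
  ∃ (c : ℝ) (r : Fin m → ℝ), 0 < c ∧ StrictMono r ∧ (∀ i, 0 < r i) ∧
    W = C c * ∏ i, (X + C (r i))

/-- One step of the recursion. -/
noncomputable def step (d : ℕ) (α : ℝ) (W : ℝ[X]) : ℝ[X] :=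
  X * (1 - X) * derivative W + (C α + C (d + 1 - α) * X) * W

lemma sign_prod {m : ℕ} (r : Fin m → ℝ) (hr : StrictMono r) (j : Fin m) :
    0 < (-1 : ℝ) ^ (j : ℕ) * ∏ i ∈ univ.erase j, (r i - r j) := by
  have hsplit : (univ.erase j : Finset (Fin m)) = Iio j ∪ Ioi j := by
    ext i
    simp only [mem_erase, mem_univ, and_true, mem_union, mem_Iio, mem_Ioi]
    exact ne_iff_lt_or_gt
  have hdisj : Disjoint (Iio j) (Ioi j) := by
    rw [Finset.disjoint_left]
    intro i hi hi'
    rw [mem_Iio] at hi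
    rw [mem_Ioi] at hi'
    exact lt_asymm hi hi'
  rw [hsplit, prod_union hdisj]
  have h1 : (-1 : ℝ) ^ (j : ℕ) * ∏ i ∈ Iio j, (r i - r j) = ∏ i ∈ Iio j, (r j - r i) := by
    have hc : (-1 : ℝ) ^ (j : ℕ) = ∏ _i ∈ Iio j, (-1 : ℝ) := by
      rw [prod_const, Fin.card_Iio]
    rw [hc, ← prod_mul_distrib]
    exact prod_congr rfl fun i _ => by ring
  rw [← mul_assoc, h1]
  apply mul_pos
  · apply prod_pos
    intro i hi
    rw [mem_Iio] at hi
    exact sub_pos.2 (hr hi)
  · apply prod_pos
    intro i hi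
    rw [mem_Ioi] at hi
    exact sub_pos.2 (hr hi)

lemma eval_derivative_root {m : ℕ} (c : ℝ) (r : Fin m → ℝ) (j : Fin m) :
    (derivative (C c * ∏ i, (X + C (r i)))).eval (-(r j)) =
      c * ∏ i ∈ univ.erase j, (r i - r j) := by
  have h : (∏ i, (X + C (r i)) : ℝ[X]) = (X + C (r j)) * ∏ i ∈ univ.erase j, (X + C (r i)) :=
    (Finset.mul_prod_erase univ (fun i => (X + C (r i) : ℝ[X])) (mem_univ j)).symm
  rw [h, derivative_C_mul, derivative_mul]
  simp only [derivative_add, derivative_X, derivative_C, add_zero, one_mul, eval_mul, eval_C,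
    eval_add, eval_X, neg_add_cancel, zero_mul, eval_prod]
  congr 1
  exact prod_congr rfl fun i _ => by ring

lemma monic_prod {m : ℕ} (r : Fin m → ℝ) : (∏ i, (X + C (r i)) : ℝ[X]).Monic :=
  monic_prod_of_monic _ _ fun _ _ => monic_X_add_C _

lemma natDegree_prod' {m : ℕ} (r : Fin m → ℝ) : (∏ i, (X + C (r i)) : ℝ[X]).natDegree = m := by
  rw [natDegree_prod_of_monic _ _ fun _ _ => monic_X_add_C _]
  simp

lemma natDegree_W {m : ℕ} {c : ℝ} (hc : 0 < c) (r : Fin m → ℝ) :
    (C c * ∏ i, (X + C (r i)) : ℝ[X]).natDegree = m := by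
  rw [natDegree_C_mul hc.ne', natDegree_prod']

lemma coeff_W {m : ℕ} {c : ℝ} (r : Fin m → ℝ) :
    (C c * ∏ i, (X + C (r i)) : ℝ[X]).coeff m = c := by
  have h := (monic_prod r).coeff_natDegree
  rw [natDegree_prod'] at h
  rw [coeff_C_mul, h, mul_one]

lemma step_natDegree_le {m d : ℕ} {α : ℝ} {W : ℝ[X]} (hW : W.natDegree ≤ m) :
    (step d α W).natDegree ≤ m + 1 := by
  unfold step
  have h1 : ((1 : ℝ[X]) - X).natDegree ≤ 1 := by
    refine (natDegree_sub_le _ _).trans ?_
    simp
  rcases Nat.eq_zero_or_pos W.natDegree with h0 | hpos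
  · obtain ⟨a, rfl⟩ : ∃ a, W = C a := ⟨W.coeff 0, eq_C_of_natDegree_eq_zero h0⟩
    rw [derivative_C, mul_zero, zero_add]
    refine natDegree_mul_le.trans ?_
    rw [natDegree_C, add_zero]
    refine (natDegree_add_le _ _).trans ?_
    rw [natDegree_C]
    refine max_le (by omega) ?_
    refine (natDegree_C_mul_le _ _).trans ?_
    rw [natDegree_X]; omega
  · refine (natDegree_add_le _ _).trans (max_le ?_ ?_)
    · refine natDegree_mul_le.trans ?_
      have h2 : (X * (1 - X) : ℝ[X]).natDegree ≤ 2 := by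
        refine natDegree_mul_le.trans ?_
        rw [natDegree_X]; omega
      have h3 := natDegree_derivative_le W
      omega
    · refine natDegree_mul_le.trans ?_
      have h2 : (C α + C (d + 1 - α) * X : ℝ[X]).natDegree ≤ 1 := by
        refine (natDegree_add_le _ _).trans (max_le (by simp) ?_)
        refine (natDegree_C_mul_le _ _).trans ?_
        rw [natDegree_X]
      omega

lemma step_coeff_gen {m d : ℕ} {α : ℝ} (W : ℝ[X]) (hco1 : W.coeff (m + 1) = 0) :
    (step d α W).coeff (m + 1) = W.coeff m * (d + 1 - α - m) := by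
  have e : step d α W = X * derivative W - X * (X * derivative W) + (C α * W +
      C (d + 1 - α) * (X * W)) := by
    unfold step
    ring
  rw [e, coeff_add, coeff_sub, coeff_X_mul, coeff_X_mul, coeff_add, coeff_C_mul, coeff_C_mul,
    coeff_X_mul, coeff_derivative, hco1]
  rcases m with _ | m
  · simp only [zero_mul, coeff_X_mul_zero, Nat.cast_zero, sub_zero, mul_zero, zero_add]
    ring
  · rw [coeff_X_mul, coeff_derivative]
    push_cast
    ring

lemma step_coeff {m d : ℕ} {α c : ℝ} {r : Fin m → ℝ} (hc : 0 < c) :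
    (step d α (C c * ∏ i, (X + C (r i)))).coeff (m + 1) = c * (d + 1 - α - m) := by
  rw [step_coeff_gen, coeff_W]
  apply coeff_eq_zero_of_natDegree_lt
  rw [natDegree_W hc r]
  omega

/-- The step preserves real-rootedness. -/
theorem RR.step {m d : ℕ} {α : ℝ} {W : ℝ[X]} (hW : RR m W) (hmd : m ≤ d) (h0 : 0 < α)
    (h1 : α < 1) : RR (m + 1) (step d α W) := by
  obtain ⟨c, r, hc, hr, hrpos, rfl⟩ := hW
  set W : ℝ[X] := C c * ∏ i, (X + C (r i)) with hWdef
  set V : ℝ[X] := Wag.step d α W with hVdef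
  have hmd' : (m : ℝ) ≤ d := by exact_mod_cast hmd
  have hlc : V.coeff (m + 1) = c * (d + 1 - α - m) := step_coeff hc
  have hlcpos : 0 < V.coeff (m + 1) := by
    rw [hlc]
    exact mul_pos hc (by linarith)
  have hWdeg : W.natDegree = m := natDegree_W hc r
  have hVdeg : V.natDegree = m + 1 := by
    apply le_antisymm (step_natDegree_le hWdeg.le)
    exact le_natDegree_of_ne_zero hlcpos.ne'
  have hVlead : V.leadingCoeff = V.coeff (m + 1) := by
    rw [leadingCoeff, hVdeg]
  -- values
  have hV0 : 0 < V.eval 0 := by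
    have : V.eval 0 = α * (c * ∏ i, r i) := by
      simp [hVdef, Wag.step, hWdef, eval_prod]
    rw [this]
    exact mul_pos h0 (mul_pos hc (prod_pos fun i _ => hrpos i))
  have hVr : ∀ j : Fin m, 0 < (-1 : ℝ) ^ ((j : ℕ) + 1) * V.eval (-(r j)) := by
    intro j
    have hWj : W.eval (-(r j)) = 0 := by
      rw [hWdef, eval_mul, eval_prod, prod_eq_zero (mem_univ j) (by simp), mul_zero]
    have : V.eval (-(r j)) = -(r j) * (1 + r j) * (c * ∏ i ∈ univ.erase j, (r i - r j)) := by
      rw [← eval_derivative_root]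
      simp only [hVdef, Wag.step, eval_add, eval_mul, eval_X, eval_sub, eval_one, eval_C]
      rw [hWj, mul_zero, add_zero, sub_neg_eq_add]
    rw [this]
    have hs := sign_prod r hr j
    have : (-1 : ℝ) ^ ((j : ℕ) + 1) * (-(r j) * (1 + r j) *
        (c * ∏ i ∈ univ.erase j, (r i - r j))) =
        (r j * (1 + r j) * c) * ((-1 : ℝ) ^ (j : ℕ) * ∏ i ∈ univ.erase j, (r i - r j)) := by
      rw [pow_succ]
      ring
    rw [this]
    have hj := hrpos j
    positivity
  -- sign at minus infinity
  obtain ⟨M, hM0, hMr, hMV⟩ : ∃ M : ℝ, 0 < M ∧ (∀ j, r j < M) ∧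
      0 < (-1 : ℝ) ^ (m + 1) * V.eval (-M) := by
    -- Q(x) = (-1)^(m+1) V(-x) has positive leading coefficient
    let Q : ℝ[X] := C ((-1 : ℝ) ^ (m + 1)) * V.comp (-X)
    have hQe : ∀ x : ℝ, Q.eval x = (-1 : ℝ) ^ (m + 1) * V.eval (-x) := by
      intro x
      simp [Q, eval_comp]
    have hQdeg : Q.natDegree = m + 1 := by
      rw [natDegree_C_mul (by positivity), natDegree_comp, hVdeg]
      simp
    have hQlead : 0 < Q.leadingCoeff := by
      have : Q.leadingCoeff = V.leadingCoeff := by
        simp only [Q, leadingCoeff_mul, leadingCoeff_C]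
        rw [leadingCoeff_comp (by simp), hVdeg]
        simp only [leadingCoeff_neg, leadingCoeff_X]
        rw [mul_comm, mul_assoc, ← mul_pow]
        norm_num
      rw [this, hVlead]
      exact hlcpos
    have htend := Q.tendsto_atTop_of_leadingCoeff_nonneg
      (natDegree_pos_iff_degree_pos.1 (by omega)) hQlead.le
    have hev := htend.eventually_gt_atTop 0
    have hev2 : ∀ᶠ x : ℝ in Filter.atTop, ∀ j, r j < x := by
      rw [Filter.eventually_all]
      exact fun j => Filter.eventually_gt_atTop (r j)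
    obtain ⟨M, hM⟩ := (hev.and (hev2.and (Filter.eventually_gt_atTop 0))).exists
    exact ⟨M, hM.2.2, hM.2.1, by rw [← hQe]; exact hM.1⟩
  -- the grid of points
  let y : ℕ → ℝ := fun k => if k = 0 then 0 else if h : k - 1 < m then r ⟨k - 1, h⟩ else M
  have hy0 : y 0 = 0 := by simp [y]
  have hyr : ∀ (j : ℕ) (hj : j < m), y (j + 1) = r ⟨j, hj⟩ := by
    intro j hj
    simp [y, hj]
  have hyM : y (m + 1) = M := by simp [y]
  have hymono : ∀ k, k ≤ m → y k < y (k + 1) := by
    intro k hk
    rcases Nat.eq_zero_or_pos k with rfl | hkpos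
    · rw [hy0]
      by_cases hm : 0 < m
      · rw [hyr 0 hm]
        exact hrpos _
      · have : m = 0 := by omega
        rw [← this, hyM]
        exact hM0
    · obtain ⟨k, rfl⟩ : ∃ k', k = k' + 1 := ⟨k - 1, by omega⟩
      rw [hyr k (by omega)]
      by_cases hk2 : k + 1 < m
      · rw [hyr (k + 1) hk2]
        exact hr (by simp [Fin.lt_def])
      · have hkm : k + 1 = m := by omega
        rw [hkm, hyM]
        exact hMr _
  have hsgn : ∀ k, k ≤ m + 1 → 0 < (-1 : ℝ) ^ k * V.eval (-(y k)) := by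
    intro k hk
    rcases Nat.eq_zero_or_pos k with rfl | hkpos
    · rw [hy0]
      simpa using hV0
    · obtain ⟨k, rfl⟩ : ∃ k', k = k' + 1 := ⟨k - 1, by omega⟩
      by_cases hk2 : k < m
      · rw [hyr k hk2]
        exact hVr ⟨k, hk2⟩
      · have hkm : k = m := by omega
        rw [hkm, hyM]
        exact hMV
  -- roots between consecutive points
  have hroot : ∀ k : Fin (m + 1), ∃ s : ℝ, y k < s ∧ s < y ((k : ℕ) + 1) ∧ V.eval (-s) = 0 := by
    intro k
    have hk : (k : ℕ) ≤ m := by omega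
    have hlt := hymono k hk
    have h1 := hsgn k (by omega)
    have h2 := hsgn (k + 1) (by omega)
    let φ : ℝ → ℝ := fun x => (-1 : ℝ) ^ (k : ℕ) * V.eval (-x)
    have hφ : Continuous φ := by
      have : Continuous fun x : ℝ => V.eval (-x) := V.continuous.comp continuous_neg
      exact continuous_const.mul this
    have h1' : 0 < φ (y k) := h1
    have h2' : φ (y (k + 1)) < 0 := by
      have : φ (y (k + 1)) = -((-1 : ℝ) ^ ((k : ℕ) + 1) * V.eval (-(y (k + 1)))) := by
        simp only [φ, pow_succ]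
        ring
      rw [this]
      linarith
    obtain ⟨s, hs, hs0⟩ := intermediate_value_Ioo' hlt.le hφ.continuousOn ⟨h2', h1'⟩
    refine ⟨s, hs.1, hs.2, ?_⟩
    have hpow : (-1 : ℝ) ^ (k : ℕ) ≠ 0 := by positivity
    exact (mul_eq_zero.1 hs0).resolve_left hpow
  choose s hs1 hs2 hs3 using hroot
  have hymono2 : ∀ k l : ℕ, k ≤ l → l ≤ m + 1 → y k ≤ y l := by
    intro k l hkl
    induction hkl with
    | refl => intro _; exact le_rfl
    | step h ih => intro hl; exact (ih (by omega)).trans (hymono _ (by omega)).le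
  have hsmono : StrictMono s := by
    intro k l hkl
    have hkl' : (k : ℕ) + 1 ≤ l := hkl
    exact (hs2 k).trans_le ((hymono2 _ _ hkl' (by omega)).trans (hs1 l).le)
  have hspos : ∀ k, 0 < s k := by
    intro k
    have := hymono2 0 k (by omega) (by omega)
    rw [hy0] at this
    exact this.trans_lt (hs1 k)
  refine ⟨V.coeff (m + 1), s, hlcpos, hsmono, hspos, ?_⟩
  have hD : V - C (V.coeff (m + 1)) * ∏ i, (X + C (s i)) = 0 := by
    refine eq_zero_of_natDegree_lt_card_of_eval_eq_zero _ (f := fun i => -(s i))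
      (fun i j hij => hsmono.injective (neg_injective hij)) ?_ ?_
    · intro i
      rw [eval_sub, hs3, eval_mul, eval_prod, prod_eq_zero (mem_univ i) (by simp), mul_zero,
        sub_zero]
    · rw [Fintype.card_fin]
      have hle : (V - C (V.coeff (m + 1)) * ∏ i, (X + C (s i))).natDegree ≤ m + 1 := by
        refine (natDegree_sub_le _ _).trans (max_le hVdeg.le ?_)
        rw [natDegree_W hlcpos]
      rcases hle.lt_or_eq with h | h
      · exact h
      · exfalso
        have hz : (V - C (V.coeff (m + 1)) * ∏ i, (X + C (s i))).coeff (m + 1) = 0 := by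
          rw [coeff_sub, coeff_W, sub_self]
        have h4 : (V - C (V.coeff (m + 1)) * ∏ i, (X + C (s i))).leadingCoeff = 0 := by
          rw [leadingCoeff, h]
          exact hz
        rw [leadingCoeff_eq_zero.1 h4] at h
        simp at h
  exact sub_eq_zero.1 hD

/-- The numerators of `∑ f(t) z^t`, where `f = ∏ i < d, (t + α i)`. -/
noncomputable def num (α : ℕ → ℝ) : ℕ → ℝ[X]
  | 0 => 1
  | d + 1 => step d (α d) (num α d)

/-- The numerator has only real roots when `0 < α 0 ≤ 1` and `0 < α i < 1` for `i ≥ 1`. -/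
theorem num_RR (α : ℕ → ℝ) (h0 : 0 < α 0) (h0' : α 0 ≤ 1) (d : ℕ)
    (h : ∀ i, 1 ≤ i → i < d → 0 < α i ∧ α i < 1) : ∃ m, m ≤ d ∧ RR m (num α d) := by
  induction d with
  | zero =>
    exact ⟨0, le_rfl, 1, Fin.elim0, one_pos, fun i => i.elim0, fun i => i.elim0, by simp [num]⟩
  | succ d ih =>
    obtain ⟨m, hm, hR⟩ := ih fun i hi hi' => h i hi (by omega)
    rcases Nat.eq_zero_or_pos d with rfl | hd
    · rcases h0'.lt_or_eq with h1 | h1
      · obtain rfl : m = 0 := by omega
        exact ⟨1, le_rfl, hR.step le_rfl h0 h1⟩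
      · refine ⟨0, by omega, 1, Fin.elim0, one_pos, fun i => i.elim0, fun i => i.elim0, ?_⟩
        simp [num, step, h1]
    · obtain ⟨h1, h2⟩ := h d hd (by omega)
      exact ⟨m + 1, by omega, hR.step hm h1 h2⟩

theorem series (α : ℕ → ℝ) (d : ℕ) :
    PowerSeries.mk (fun t : ℕ => ∏ i ∈ range d, ((t : ℝ) + α i)) *
      (1 - PowerSeries.X) ^ (d + 1) = (num α d : PowerSeries ℝ) := by
  induction d with
  | zero =>
    simp only [range_zero, prod_empty, zero_add, pow_one, num, Polynomial.coe_one]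
    exact PowerSeries.mk_one_mul_one_sub_eq_one ℝ
  | succ d ih =>
    set F : PowerSeries ℝ := PowerSeries.mk (fun t : ℕ => ∏ i ∈ range d, ((t : ℝ) + α i)) with hF
    have h1 : PowerSeries.mk (fun t : ℕ => ∏ i ∈ range (d + 1), ((t : ℝ) + α i)) =
        PowerSeries.X * PowerSeries.derivative ℝ F + PowerSeries.C (α d) * F := by
      ext t
      rw [PowerSeries.coeff_mk, map_add, PowerSeries.coeff_C_mul, hF, PowerSeries.coeff_mk,
        prod_range_succ]
      rcases t with _ | t
      · simp
        ring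
      · rw [PowerSeries.coeff_succ_X_mul, PowerSeries.coeff_derivative, PowerSeries.coeff_mk]
        push_cast
        ring
    have h2 : (PowerSeries.derivative ℝ) ((num α d : PowerSeries ℝ)) =
        ((derivative (num α d) : ℝ[X]) : PowerSeries ℝ) := PowerSeries.derivative_coe _
    rw [← ih] at h2
    have h3 : PowerSeries.derivative ℝ (F * (1 - PowerSeries.X) ^ (d + 1)) =
        PowerSeries.derivative ℝ F * (1 - PowerSeries.X) ^ (d + 1) -
          ((d : PowerSeries ℝ) + 1) * F * (1 - PowerSeries.X) ^ d := by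
      rw [Derivation.leibniz, Derivation.leibniz_pow]
      simp only [smul_eq_mul, map_sub, PowerSeries.derivative_X, Nat.add_sub_cancel]
      simp
      ring
    rw [h1, num, step]
    push_cast
    rw [← h2, ← ih, h3]
    simp only [Polynomial.coe_C, map_add, map_sub, map_one, map_natCast]
    ring

end Pool.Agent.TH371.Wag
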